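import Mathlib
import Pool.Agent.Lib.MP_ac4964_an.Host

set_option autoImplicit false

open Set TopologicalSpace

namespace Pool.Agent.Results.MP_ac4964_an.NoBasisHost

universe u v w

/-- `X` is isomorphic (linearly homeomorphic) to a closed subspace of `Y`. -/
def Embeds (X : Type v) (Y : Type w) [NormedAddCommGroup X] [NormedSpace ℝ X]
    [NormedAddCommGroup Y] [NormedSpace ℝ Y] : Prop :=
  ∃ Z : Submodule ℝ Y, IsClosed (Z : Set Y) ∧ Nonempty (X ≃L[ℝ] Z)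

/-- The real sequence space of absolutely summable sequences. -/
abbrev ell1 : Type := lp (fun _ : ℕ => ℝ) 1

/-- The identity of `Y` is approximated on finite sets by uniformly bounded operators whose
adjoints have norm separable range. -/
def SepApprox (Y : Type w) [NormedAddCommGroup Y] [NormedSpace ℝ Y] : Prop :=
  ∃ Λ : ℝ, ∀ F : Finset Y, ∀ ε > 0, ∃ S : Y →L[ℝ] Y, ‖S‖ ≤ Λ ∧ (∀ y ∈ F, ‖S y - y‖ ≤ ε) ∧
    IsSeparable (range fun φ : StrongDual ℝ Y => φ.comp S)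

lemma below_of_embeds {X : Type v} {Y : Type w} [NormedAddCommGroup X] [NormedSpace ℝ X]
    [NormedAddCommGroup Y] [NormedSpace ℝ Y] (h : Embeds X Y) :
    ∃ T : X →L[ℝ] Y, ∃ c : ℝ, 0 < c ∧ ∀ x, c * ‖x‖ ≤ ‖T x‖ := by
  obtain ⟨Z, -, ⟨e⟩⟩ := h
  let S : Z →L[ℝ] X := e.symm
  have hp : 0 < ‖S‖ + 1 := by positivity
  refine ⟨Z.subtypeL.comp (e : X →L[ℝ] Z), (‖S‖ + 1)⁻¹, by positivity, fun x => ?_⟩
  have h1 := S.le_opNorm (e x)
  have h2 : S (e x) = x := e.symm_apply_apply x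
  have h3 : ‖(Z.subtypeL.comp (e : X →L[ℝ] Z)) x‖ = ‖e x‖ := rfl
  rw [h2] at h1
  rw [h3, inv_mul_le_iff₀ hp]
  nlinarith [norm_nonneg (e x)]

lemma embeds_of_below {X : Type v} {Y : Type w} [NormedAddCommGroup X] [NormedSpace ℝ X]
    [NormedAddCommGroup Y] [NormedSpace ℝ Y] [CompleteSpace X] [CompleteSpace Y]
    (h : ∃ T : X →L[ℝ] Y, ∃ c : ℝ, 0 < c ∧ ∀ x, c * ‖x‖ ≤ ‖T x‖) : Embeds X Y := by
  obtain ⟨T, c, hc, hT⟩ := h
  have ha : AntilipschitzWith ⟨c⁻¹, by positivity⟩ T := by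
    refine T.antilipschitz_of_bound fun x => ?_
    change ‖x‖ ≤ c⁻¹ * ‖T x‖
    rw [le_inv_mul_iff₀ hc]
    exact hT x
  have hcl : IsClosed (range T) := ha.isClosed_range T.uniformContinuous
  exact ⟨LinearMap.range (T : X →ₗ[ℝ] Y), hcl, ⟨T.equivRange ha.injective hcl⟩⟩

theorem result :
    ∃ (X : Type) (_ : NormedAddCommGroup X) (_ : NormedSpace ℝ X), CompleteSpace X ∧
      SeparableSpace X ∧ ¬ Embeds ell1 X ∧
      ∀ (Y : Type u) [NormedAddCommGroup Y] [NormedSpace ℝ Y] [CompleteSpace Y],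
        SepApprox Y → Embeds X Y → Embeds ell1 Y := by
  classical
  obtain ⟨X, j, hX, hj⟩ := Lib.MP_ac4964_an.exists_space 0
  refine ⟨X.toSubmodule, inferInstance, inferInstance, X.isClosed.completeSpace_coe,
    (IsSeparable.of_separableSpace (X.toSubmodule : Set C(ℕ → Bool, ℝ))).separableSpace,
    fun h => hX (below_of_embeds h), ?_⟩
  rintro Y _ _ _ ⟨Λ, hΛ⟩ h
  obtain ⟨T₀, c, hc, hT₀⟩ := below_of_embeds h
  obtain ⟨T, hT1, lam, hT2⟩ := Lib.MP_ac4964_an.normalise _ j hj T₀ c hc hT₀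
  have h0 : 0 ≤ Λ := by
    obtain ⟨S, hS, -⟩ := hΛ ∅ 1 one_pos
    exact (norm_nonneg _).trans hS
  refine embeds_of_below (Lib.MP_ac4964_an.hasL1_of_appr 0 T lam hT2 Λ h0 fun F ε hε => ?_)
  obtain ⟨S, hS1, hS2, D, hD1, hD2⟩ := hΛ (F.image fun g => T (Finsupp.single g 1)) ε hε
  have hne : D.Nonempty := closure_nonempty_iff.1 ⟨_, hD2 ⟨0, rfl⟩⟩
  obtain ⟨Ψ, hΨ⟩ := hD1.exists_eq_range hne
  rw [hΨ] at hD2
  refine ⟨S.toLinearMap.comp T, fun v => (S.le_opNorm _).trans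
    (mul_le_mul hS1 (hT1 v) (norm_nonneg _) h0), fun g hg => hS2 _ (Finset.mem_image_of_mem _ hg),
    fun i => (Ψ i).toLinearMap.comp T, fun i => ⟨‖Ψ i‖, norm_nonneg _, fun v =>
      ((Ψ i).le_opNorm _).trans (mul_le_mul_of_nonneg_left (hT1 v) (norm_nonneg _))⟩,
    fun φ δ hδ => ?_⟩
  obtain ⟨ψ, ⟨i, e⟩, hi⟩ := Metric.mem_closure_iff.1 (hD2 ⟨φ, rfl⟩) δ hδ
  rw [dist_eq_norm, ← e] at hi
  exact ⟨i, fun v => ((φ.comp S - Ψ i).le_opNorm (T v)).trans
    (mul_le_mul hi.le (hT1 v) (norm_nonneg _) hδ.le)⟩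

/-- The adjoint of a compact operator has separable range, so the bounded compact approximation
property (hence the bounded approximation property) implies `SepApprox`. -/
theorem sepApprox_of_compact (Y : Type w) [NormedAddCommGroup Y] [NormedSpace ℝ Y] (Λ : ℝ)
    (h : ∀ F : Finset Y, ∀ ε > 0, ∃ S : Y →L[ℝ] Y, ‖S‖ ≤ Λ ∧ (∀ y ∈ F, ‖S y - y‖ ≤ ε) ∧
      IsCompactOperator S) : SepApprox Y := by
  refine ⟨Λ, fun F ε hε => ?_⟩
  obtain ⟨S, h1, h2, h3⟩ := h F ε hε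
  refine ⟨S, h1, h2, ?_⟩
  obtain ⟨K, hK, hS⟩ := h3.image_closedBall_subset_compact (f := S.toLinearMap) 1
  have : CompactSpace K := isCompact_iff_compactSpace.1 hK
  let R : StrongDual ℝ Y → C(K, ℝ) := fun φ => ⟨fun y => φ y, by fun_prop⟩
  obtain ⟨t, t1, t2, t3⟩ := (IsSeparable.of_separableSpace (range R)).exists_countable_dense_subset
  choose f hf using fun g : t => t1 g.2
  have := t2.to_subtype
  refine ⟨range fun g : t => (f g).comp S, countable_range _, ?_⟩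
  rintro _ ⟨φ, rfl⟩
  refine Metric.mem_closure_iff.2 fun δ hδ => ?_
  obtain ⟨g, hg, hd⟩ := Metric.mem_closure_iff.1 (t3 ⟨φ, rfl⟩) δ hδ
  refine ⟨_, ⟨⟨g, hg⟩, rfl⟩, lt_of_le_of_lt ?_ hd⟩
  rw [dist_eq_norm]
  refine ContinuousLinearMap.opNorm_le_of_unit_norm dist_nonneg fun y hy => ?_
  have h := ContinuousMap.dist_apply_le_dist (f := R φ) (g := R (f ⟨g, hg⟩))
    ⟨S y, hS ⟨y, by simp [hy], rfl⟩⟩
  exact h.trans (by rw [hf])

/-- A space with a Schauder basis has `SepApprox`. -/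
theorem sepApprox_of_basis (Y : Type w) [NormedAddCommGroup Y] [NormedSpace ℝ Y] [CompleteSpace Y]
    (b : SchauderBasis ℝ Y) : SepApprox Y := by
  obtain ⟨C, hC⟩ := b.exists_norm_proj_le
  refine ⟨C, fun F ε hε => ?_⟩
  have h : ∀ᶠ n in Filter.atTop, ∀ y ∈ F, ‖b.proj n y - y‖ ≤ ε := by
    rw [Filter.eventually_all_finset]
    exact fun y _ => (Metric.tendsto_nhds.1 (b.tendsto_proj y) ε hε).mono fun n hn => by
      rw [dist_eq_norm] at hn
      exact hn.le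
  obtain ⟨n, hn⟩ := h.exists
  refine ⟨b.proj n, hC n, hn, (countable_range b.coord).isSeparable.span (R := ℝ) |>.mono ?_⟩
  rintro _ ⟨φ, rfl⟩
  have e : φ.comp (b.proj n) = ∑ i ∈ Finset.range n, φ (b i) • b.coord i := by
    ext y
    simp [mul_comm]
  simp only [e]
  exact Submodule.sum_mem _ fun i _ => Submodule.smul_mem _ _ (Submodule.subset_span ⟨i, rfl⟩)

end Pool.Agent.Results.MP_ac4964_an.NoBasisHost
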