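import Mathlib
import Pool.Agent.Lib.MP_ac4964_an.Main

set_option autoImplicit false

open Set TopologicalSpace

namespace Pool.Agent.Results.MP_ac4964_an.NotStronglyBounded

universe u v w

/-- The set of closed linear subspaces of the real space of continuous functions on Cantor space. -/
abbrev SB : Type := ClosedSubmodule ℝ C(ℕ → Bool, ℝ)

/-- The Effros-Borel sigma-algebra on `SB`: generated by the sets of subspaces meeting an open set. -/
def effros : MeasurableSpace SB :=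
  MeasurableSpace.generateFrom
    {S | ∃ U : Set C(ℕ → Bool, ℝ), IsOpen U ∧ S = {X : SB | ∃ x ∈ X.toSubmodule, x ∈ U}}

/-- A subset of `SB` is analytic if it is the range of a Borel map from Baire space to `SB`. -/
def IsAnalytic (A : Set SB) : Prop :=
  ∃ f : (ℕ → ℕ) → SB, @Measurable _ _ (borel (ℕ → ℕ)) effros f ∧ range f = A

/-- `X` is isomorphic (linearly homeomorphic) to a closed subspace of `Y`. -/
def Embeds (X : Type v) (Y : Type w) [NormedAddCommGroup X] [NormedSpace ℝ X]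
    [NormedAddCommGroup Y] [NormedSpace ℝ Y] : Prop :=
  ∃ Z : Submodule ℝ Y, IsClosed (Z : Set Y) ∧ Nonempty (X ≃L[ℝ] Z)

/-- The real sequence space of absolutely summable sequences. -/
abbrev ell1 : Type := lp (fun _ : ℕ => ℝ) 1

lemma below_of_embeds {X : Type v} {Y : Type w} [NormedAddCommGroup X] [NormedSpace ℝ X]
    [NormedAddCommGroup Y] [NormedSpace ℝ Y] (h : Embeds X Y) :
    ∃ T : X →L[ℝ] Y, ∃ c : ℝ, 0 < c ∧ ∀ x, c * ‖x‖ ≤ ‖T x‖ := by
  obtain ⟨Z, -, ⟨e⟩⟩ := h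
  let S : Z →L[ℝ] X := e.symm
  have hp : 0 < ‖S‖ + 1 := by positivity
  refine ⟨Z.subtypeL.comp (e : X →L[ℝ] Z), (‖S‖ + 1)⁻¹, by positivity, fun x => ?_⟩
  have h1 := S.le_opNorm (e x)
  have h2 : S (e x) = x := e.symm_apply_apply x
  have h3 : ‖(Z.subtypeL.comp (e : X →L[ℝ] Z)) x‖ = ‖e x‖ := rfl
  rw [h2] at h1
  rw [h3, inv_mul_le_iff₀ hp]
  nlinarith [norm_nonneg (e x)]

lemma embeds_of_below {X : Type v} {Y : Type w} [NormedAddCommGroup X] [NormedSpace ℝ X]
    [NormedAddCommGroup Y] [NormedSpace ℝ Y] [CompleteSpace X] [CompleteSpace Y]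
    (h : ∃ T : X →L[ℝ] Y, ∃ c : ℝ, 0 < c ∧ ∀ x, c * ‖x‖ ≤ ‖T x‖) : Embeds X Y := by
  obtain ⟨T, c, hc, hT⟩ := h
  have ha : AntilipschitzWith ⟨c⁻¹, by positivity⟩ T := by
    refine T.antilipschitz_of_bound fun x => ?_
    change ‖x‖ ≤ c⁻¹ * ‖T x‖
    rw [le_inv_mul_iff₀ hc]
    exact hT x
  have hcl : IsClosed (range T) := ha.isClosed_range T.uniformContinuous
  exact ⟨LinearMap.range (T : X →ₗ[ℝ] Y), hcl, ⟨T.equivRange ha.injective hcl⟩⟩

theorem result :
    ∃ A : Set SB, IsAnalytic A ∧ (∀ X ∈ A, ¬ Embeds ell1 X.toSubmodule) ∧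
      ∀ (Y : Type u) [NormedAddCommGroup Y] [NormedSpace ℝ Y] [CompleteSpace Y]
        [SeparableSpace Y], (∀ X ∈ A, Embeds X.toSubmodule Y) → Embeds ell1 Y := by
  obtain ⟨J, hJ1, hJ2⟩ := Lib.MP_ac4964_an.exists_embedding Lib.MP_ac4964_an.NA
    (Lib.MP_ac4964_an.NN_usc Lib.MP_ac4964_an.continuous_Cl Lib.MP_ac4964_an.hgen)
    (fun g => 2 ^ Lib.MP_ac4964_an.lev (Sum.inl g) + 1) (fun g => by positivity)
    Lib.MP_ac4964_an.NA_single
  let π : (ℕ → ℕ) → Lib.MP_ac4964_an.Bits := fun x n => (x n : ZMod 2)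
  have hπ : Measurable π :=
    measurable_pi_lambda _ fun n => (measurable_of_countable _).comp (measurable_pi_apply n)
  let F : Lib.MP_ac4964_an.Bits → SB := fun α =>
    ⟨(LinearMap.range (J α)).topologicalClosure, Submodule.isClosed_topologicalClosure _⟩
  refine ⟨range (F ∘ π), ⟨F ∘ π, ?_, rfl⟩, ?_, ?_⟩
  · rw [← BorelSpace.measurable_eq (α := ℕ → ℕ)]
    refine measurable_generateFrom ?_
    rintro S ⟨U, hU, rfl⟩
    exact hπ (hJ2 U hU)
  · rintro X ⟨x, rfl⟩ hX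
    exact Lib.MP_ac4964_an.not_hasL1_closure (π x) (J (π x)) (hJ1 (π x)) (below_of_embeds hX)
  · intro Y _ _ _ _ h
    have key : ∀ α, ∃ S : (Clopens Lib.MP_ac4964_an.KT →₀ ℝ) →ₗ[ℝ] Y,
        (∀ v, ‖S v‖ ≤ Lib.MP_ac4964_an.NA α v) ∧
        ∃ lam : ℕ, ∀ v, Lib.MP_ac4964_an.NA α v ≤ lam * ‖S v‖ := by
      intro α
      obtain ⟨x, rfl⟩ : ∃ x, π x = α := ⟨fun n => (α n).val, funext fun n => by simp [π]⟩
      obtain ⟨T, c, hc, hT⟩ := below_of_embeds (h _ ⟨x, rfl⟩)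
      exact Lib.MP_ac4964_an.normalise
        (X := (LinearMap.range (J (π x))).topologicalClosure) (Y := Y)
        (Lib.MP_ac4964_an.NA (π x))
        ((J (π x)).codRestrict (LinearMap.range (J (π x))).topologicalClosure
        (fun v => Submodule.le_topologicalClosure _ (LinearMap.mem_range_self _ v)))
        (hJ1 (π x)) T c hc hT
    choose T hT1 hT2 using key
    exact embeds_of_below (Lib.MP_ac4964_an.hasL1_of_universal T hT1 hT2)

end Pool.Agent.Results.MP_ac4964_an.NotStronglyBounded
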