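import Mathlib
import Pool.Agent.FS.L1Dens.Acc

set_option autoImplicit false

open Set TopologicalSpace

namespace Pool.Agent.Results.MP_ac4964_an.SmallDensity

universe u v w

/-- `X` is isomorphic (linearly homeomorphic) to a closed subspace of `Y`. -/
def Embeds (X : Type v) (Y : Type w) [NormedAddCommGroup X] [NormedSpace ℝ X]
    [NormedAddCommGroup Y] [NormedSpace ℝ Y] : Prop :=
  ∃ Z : Submodule ℝ Y, IsClosed (Z : Set Y) ∧ Nonempty (X ≃L[ℝ] Z)

/-- The real sequence space of absolutely summable sequences. -/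
abbrev ell1 : Type := lp (fun _ : ℕ => ℝ) 1

lemma below_of_embeds {X : Type v} {Y : Type w} [NormedAddCommGroup X] [NormedSpace ℝ X]
    [NormedAddCommGroup Y] [NormedSpace ℝ Y] (h : Embeds X Y) :
    ∃ T : X →L[ℝ] Y, ∃ c : ℝ, 0 < c ∧ ∀ x, c * ‖x‖ ≤ ‖T x‖ := by
  obtain ⟨Z, -, ⟨e⟩⟩ := h
  let S : Z →L[ℝ] X := e.symm
  have hp : 0 < ‖S‖ + 1 := by positivity
  refine ⟨Z.subtypeL.comp (e : X →L[ℝ] Z), (‖S‖ + 1)⁻¹, by positivity, fun x => ?_⟩
  have h1 := S.le_opNorm (e x)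
  have h2 : S (e x) = x := e.symm_apply_apply x
  have h3 : ‖(Z.subtypeL.comp (e : X →L[ℝ] Z)) x‖ = ‖e x‖ := rfl
  rw [h2] at h1
  rw [h3, inv_mul_le_iff₀ hp]
  nlinarith [norm_nonneg (e x)]

lemma embeds_of_below {X : Type v} {Y : Type w} [NormedAddCommGroup X] [NormedSpace ℝ X]
    [NormedAddCommGroup Y] [NormedSpace ℝ Y] [CompleteSpace X] [CompleteSpace Y]
    (h : ∃ T : X →L[ℝ] Y, ∃ c : ℝ, 0 < c ∧ ∀ x, c * ‖x‖ ≤ ‖T x‖) : Embeds X Y := by
  obtain ⟨T, c, hc, hT⟩ := h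
  have ha : AntilipschitzWith ⟨c⁻¹, by positivity⟩ T := by
    refine T.antilipschitz_of_bound fun x => ?_
    change ‖x‖ ≤ c⁻¹ * ‖T x‖
    rw [le_inv_mul_iff₀ hc]
    exact hT x
  have hcl : IsClosed (range T) := ha.isClosed_range T.uniformContinuous
  exact ⟨LinearMap.range (T : X →ₗ[ℝ] Y), hcl, ⟨T.equivRange ha.injective hcl⟩⟩

theorem result (Y : Type u) [NormedAddCommGroup Y] [NormedSpace ℝ Y] [CompleteSpace Y]
    (D : Set Y) (hD : Dense D) (hc : Cardinal.mk D < Cardinal.continuum)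
    (h : ∀ (X : Type) [NormedAddCommGroup X] [NormedSpace ℝ X] [CompleteSpace X]
      [SeparableSpace X], ¬ Embeds ell1 X → Embeds X Y) : Embeds ell1 Y := by
  have key : ∀ α, ∃ S : (Clopens Lib.MP_ac4964_an.KT →₀ ℝ) →ₗ[ℝ] Y,
      (∀ v, ‖S v‖ ≤ Lib.MP_ac4964_an.NA α v) ∧
      ∃ lam : ℕ, ∀ v, Lib.MP_ac4964_an.NA α v ≤ lam * ‖S v‖ := by
    intro α
    obtain ⟨X, j, hX, hj⟩ := Lib.MP_ac4964_an.exists_space α
    have : CompleteSpace X.toSubmodule := X.isClosed.completeSpace_coe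
    have : SeparableSpace X.toSubmodule :=
      (IsSeparable.of_separableSpace (X.toSubmodule : Set C(ℕ → Bool, ℝ))).separableSpace
    obtain ⟨T, c, hc, hT⟩ := below_of_embeds (h X.toSubmodule fun h => hX (below_of_embeds h))
    exact Lib.MP_ac4964_an.normalise _ j hj T c hc hT
  choose T hT1 hT2 using key
  obtain ⟨α, hα⟩ := FS.L1Dens.exists_acc hD hc T
  obtain ⟨lam, hlam⟩ := hT2 α
  exact embeds_of_below (FS.L1Dens.hasL1_of_acc T hT1 α lam hlam hα)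

end Pool.Agent.Results.MP_ac4964_an.SmallDensity
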